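import Pool.Agent.Helper20.EX3.Statements
import Pool.Agent.Helper28.EX.ST

set_option autoImplicit false

open Finset
open scoped Classical

namespace OT

noncomputable section

/-! ### INST : disjoint in-stars with centres of the other kind -/

theorem inst_stars_mono {V : Type} (D : V → V → Prop) (s : Bool) (d : ℕ) (S S' Y : Finset V)
    (lv : V → Fin d → V) (h : Stars D s d S Y lv) (hS : S' ⊆ S) : Stars D s d S' Y lv :=
  ⟨fun u hu j => ⟨(h.adj u (hS hu) j).1, (h.adj u (hS hu) j).2.1,
      fun hh => (h.adj u (hS hu) j).2.2 (hS hh)⟩,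
    fun u hu u' hu' j j' e => h.inj u (hS hu) u' (hS hu') j j' e⟩

theorem inst_pigeon {V κ : Type} [Fintype κ] [Nonempty κ] (S : Finset V) (f : V → κ) :
    ∃ (y : κ) (S' : Finset V), S' ⊆ S ∧ (∀ x ∈ S', f x = y) ∧
      (S.card : ℝ) ≤ (Fintype.card κ : ℝ) * (S'.card : ℝ) := by
  have hpos : (0 : ℝ) < (Fintype.card κ : ℝ) := by exact_mod_cast Fintype.card_pos
  obtain ⟨y, _, hy⟩ := Finset.exists_le_card_fiber_of_nsmul_le_card_of_maps_to
    (s := S) (t := (univ : Finset κ)) (f := f) (b := (S.card : ℝ) / (Fintype.card κ : ℝ))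
    (fun a _ => mem_univ _) univ_nonempty (by
      rw [card_univ, nsmul_eq_mul, mul_div_cancel₀ _ hpos.ne'])
  refine ⟨y, S.filter fun x => f x = y, filter_subset _ _, fun x hx => (mem_filter.1 hx).2, ?_⟩
  rw [div_le_iff₀ hpos] at hy
  linarith

/-- greedy choice of stars when every centre has many possible leaves -/
theorem inst_greedy (d : ℕ) {V : Type} [Fintype V] (D : V → V → Prop) (irr : ∀ v, ¬ D v v)
    (s : Bool) (X Y : Finset V) (m : ℝ) (hX : ∀ u ∈ X, m ≤ ((Y ∩ adjN D s u).card : ℝ)) :
    ∃ (S : Finset V) (lv : V → Fin d → V), S ⊆ X ∧ Stars D s d S Y lv ∧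
      ((X.card : ℝ) ≤ (d + 1) * (S.card : ℝ) ∨ m - d ≤ (d + 1) * (S.card : ℝ)) := by
  obtain ⟨S, hS, hmax⟩ := Finset.exists_max_image
    (X.powerset.filter fun S => ∃ lv : V → Fin d → V, Stars D s d S Y lv) Finset.card
    ⟨∅, by
      refine mem_filter.2 ⟨by simp, fun v _ => v, ?_, ?_⟩
      · intro u hu; simp at hu
      · intro u hu; simp at hu⟩
  obtain ⟨hSX, lv, hst⟩ := mem_filter.1 hS
  rw [mem_powerset] at hSX
  refine ⟨S, lv, hSX, hst, ?_⟩
  set Z := S ∪ (S ×ˢ (univ : Finset (Fin d))).image (fun p => lv p.1 p.2) with hZ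
  have hZc : (Z.card : ℝ) ≤ (d + 1) * S.card := by
    have : Z.card ≤ (d + 1) * S.card := by
      calc Z.card ≤ S.card + ((S ×ˢ (univ : Finset (Fin d))).image (fun p => lv p.1 p.2)).card :=
            card_union_le _ _
        _ ≤ S.card + (S ×ˢ (univ : Finset (Fin d))).card := by
            gcongr; exact card_image_le
        _ = (d + 1) * S.card := by
            rw [card_product, card_univ, Fintype.card_fin]; ring
    exact_mod_cast this
  by_cases hc : X ⊆ Z
  · left
    have : (X.card : ℝ) ≤ Z.card := by exact_mod_cast card_le_card hc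
    linarith
  · right
    obtain ⟨u, hu, huZ⟩ := Finset.not_subset.1 hc
    have hlt : ((Y \ Z) ∩ adjN D s u).card < d := by
      by_contra hcon
      push Not at hcon
      obtain ⟨S', lv', h1, h2, h3⟩ := st_extend d D irr s X Y S lv hSX hst Z hZ u hu huZ hcon
      have := hmax S' (mem_filter.2 ⟨mem_powerset.2 h1, lv', h2⟩)
      omega
    have h3 : (Y ∩ adjN D s u).card ≤ ((Y \ Z) ∩ adjN D s u).card + Z.card := by
      calc (Y ∩ adjN D s u).card ≤ (((Y \ Z) ∩ adjN D s u) ∪ Z).card := by
            apply card_le_card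
            intro v hv
            rw [mem_inter] at hv
            rw [mem_union, mem_inter, mem_sdiff]
            by_cases h : v ∈ Z
            · exact Or.inr h
            · exact Or.inl ⟨⟨hv.1, h⟩, hv.2⟩
        _ ≤ _ := card_union_le _ _
    have h4 : ((Y ∩ adjN D s u).card : ℝ) ≤ d + Z.card := by
      have : (Y ∩ adjN D s u).card ≤ d + Z.card := by omega
      exact_mod_cast this
    have := hX u hu
    linarith

theorem x3_inst : StInst := by
  intro d ρ hρ hρ1
  refine ⟨ρ / (640 * (d + 1)), 40 * d + d / ρ + 1, by positivity, ?_⟩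
  intro V _ D W δ L hV hT hδ hSD hL
  have hd0 : (0:ℝ) ≤ d := Nat.cast_nonneg d
  have hdr : 0 ≤ (d:ℝ) / ρ := by positivity
  have hL1 : 1 ≤ L := by linarith
  have hL40 : 40 * (d:ℝ) ≤ L := by linarith
  have hLρ : (d:ℝ) ≤ ρ * L := by
    have : (d:ℝ) / ρ ≤ L := by linarith
    rw [div_le_iff₀ hρ] at this
    linarith
  set n : ℝ := (Fintype.card V : ℝ) with hn
  have hn0 : 0 < n := by rw [hn]; exact_mod_cast hV
  have hdeg := hSD.deg
  have hle : ∀ A : Finset V, (A.card : ℝ) ≤ n := by
    intro A; rw [hn]; exact_mod_cast card_le_univ A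
  have hLn : L ≤ n / 2 := by
    obtain ⟨v⟩ := Fintype.card_pos_iff.1 hV
    have h1 := hdeg true v
    have h2 := hle (adjN D true v)
    rw [← hn] at h1
    linarith
  -- the exceptional set is small
  set U : Finset V := univ.biUnion W with hU
  have hUc : (U.card : ℝ) = ∑ k, ((W k).card : ℝ) := by
    rw [hU, card_biUnion (fun k _ l _ h => hT.disj k l h)]
    push_cast; rfl
  have hsum : ∑ k, ((W k).card : ℝ) = ((W (true, true)).card : ℝ) + ((W (true, false)).card : ℝ)
      + (((W (false, true)).card : ℝ) + ((W (false, false)).card : ℝ)) := by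
    rw [Fintype.sum_prod_type]
    simp
  have hUbig : (49 / 50) * n ≤ (U.card : ℝ) := by
    have h1 := hT.inB true
    have h2 := hT.inB false
    rw [hUc, hsum]
    rw [← hn] at h1 h2
    have h3 : δ * n ≤ (1/100) * n := by
      apply mul_le_mul_of_nonneg_right hδ hn0.le
    linarith
  have hExc : ((univ \ U).card : ℝ) ≤ n / 50 := by
    have h1 : ((univ \ U).card : ℝ) + U.card = n := by
      rw [hn]
      have := card_sdiff_add_card_eq_card (subset_univ U)
      rw [card_univ] at this
      exact_mod_cast this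
    linarith
  -- options exist
  have hopt : ∀ (s : Bool) (v : V), ∃ k, Opt D W ρ s k v := by
    intro s v
    by_contra hcon
    push Not at hcon
    have h1 : (adjN D s v).card ≤ ∑ k, (W k ∩ adjN D s v).card + (univ \ U).card := by
      calc (adjN D s v).card ≤ ((univ.biUnion fun k => W k ∩ adjN D s v) ∪ (univ \ U)).card := by
            apply card_le_card
            intro w hw
            rw [mem_union]
            by_cases h : w ∈ U
            · left
              rw [hU, mem_biUnion] at h
              obtain ⟨k, _, hk⟩ := h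
              exact mem_biUnion.2 ⟨k, mem_univ _, mem_inter.2 ⟨hk, hw⟩⟩
            · right
              exact mem_sdiff.2 ⟨mem_univ _, h⟩
        _ ≤ (univ.biUnion fun k => W k ∩ adjN D s v).card + (univ \ U).card := card_union_le _ _
        _ ≤ _ := by gcongr; exact card_biUnion_le
    have h2 : ((adjN D s v).card : ℝ) ≤ ∑ k, ((W k ∩ adjN D s v).card : ℝ) + (univ \ U).card := by
      exact_mod_cast h1
    have h3 : ∑ k, ((W k ∩ adjN D s v).card : ℝ) ≤ ∑ _k : Bool × Bool, ρ * n := by
      apply sum_le_sum
      intro k _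
      have := hcon k
      unfold Opt at this
      push Not at this
      rw [← hn] at this
      exact this.le
    rw [sum_const, card_univ, Fintype.card_prod, Fintype.card_bool, nsmul_eq_mul] at h3
    push_cast at h3
    have h4 := hdeg s v
    rw [← hn] at h4
    have h5 : ρ * n ≤ (1/20) * n := mul_le_mul_of_nonneg_right hρ1 hn0.le
    linarith
  set inO : Bool → V → Prop := fun b v => ∃ k : Bool × Bool, k.2 = b ∧ Opt D W ρ false k v with hinO
  have hin : ∀ v, ∃ b, inO b v := fun v => by
    obtain ⟨k, hk⟩ := hopt false v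
    exact ⟨k.2, k, rfl, hk⟩
  set I0 : Finset V := univ.filter fun v => inO true v ∧ inO false v with hI0
  choose ko hko using hopt true
  by_cases hcase : L / 4 ≤ (I0.card : ℝ)
  · -- many vertices with both kinds of in-options
    have hk1 : ∀ v : V, ∃ k : Bool × Bool, v ∈ I0 → k.2 = true ∧ Opt D W ρ false k v := by
      intro v
      by_cases h : v ∈ I0
      · have h' := h
        rw [hI0, mem_filter] at h'
        obtain ⟨k, hk⟩ := h'.2.1
        exact ⟨k, fun _ => hk⟩
      · exact ⟨(true, true), fun hh => absurd hh h⟩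
    have hk2 : ∀ v : V, ∃ k : Bool × Bool, v ∈ I0 → k.2 = false ∧ Opt D W ρ false k v := by
      intro v
      by_cases h : v ∈ I0
      · have h' := h
        rw [hI0, mem_filter] at h'
        obtain ⟨k, hk⟩ := h'.2.2
        exact ⟨k, fun _ => hk⟩
      · exact ⟨(true, true), fun hh => absurd hh h⟩
    choose k1 hk1 using hk1
    choose k2 hk2 using hk2
    obtain ⟨⟨y1, y2, y3⟩, S0, hS0s, hS0f, hy⟩ := inst_pigeon I0 (fun v => (k1 v, k2 v, ko v))
    have hcard : (Fintype.card ((Bool × Bool) × (Bool × Bool) × (Bool × Bool)) : ℝ) = 64 := by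
      simp only [Fintype.card_prod, Fintype.card_bool]; norm_num
    rw [hcard] at hy
    have hS0m : ∀ u ∈ S0, u ∈ I0 ∧ k1 u = y1 ∧ k2 u = y2 ∧ ko u = y3 := by
      intro u hu
      have h2 := hS0f u hu
      simp only [Prod.mk.injEq] at h2
      exact ⟨hS0s hu, h2.1, h2.2.1, h2.2.2⟩
    obtain ⟨S, lv, hSS, hst, hsz⟩ := inst_greedy d D hSD.irr false S0 (W y1) (ρ * n) (by
      intro u hu
      obtain ⟨h1, h2, h3, h4⟩ := hS0m u hu
      have := (hk1 u h1).2
      rw [h2] at this
      unfold Opt at this
      rwa [← hn] at this)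
    have hS0ne : S0.Nonempty := by
      rw [← card_pos]
      by_contra hcon
      have h0 : S0.card = 0 := by omega
      rw [h0] at hy
      push_cast at hy
      linarith
    obtain ⟨u0, hu0⟩ := hS0ne
    refine ⟨y1, y2, y3, ?_, S, lv, hst, ?_, ?_⟩
    · obtain ⟨h1, h2, h3, h4⟩ := hS0m u0 hu0
      have e1 := (hk1 u0 h1).1
      have e2 := (hk2 u0 h1).1
      rw [h2] at e1
      rw [h3] at e2
      rw [e1, e2]
      simp
    · rw [div_mul_eq_mul_div, div_le_iff₀ (by positivity)]
      have hS0' : (0:ℝ) ≤ (S.card : ℝ) := Nat.cast_nonneg _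
      rcases hsz with h | h
      · have h5 : L / 4 ≤ 64 * ((d + 1) * (S.card : ℝ)) := by linarith
        have h6 : ρ * L ≤ 1 * L := mul_le_mul_of_nonneg_right (by linarith) (by linarith)
        nlinarith
      · have h5 : ρ * (2 * L) ≤ ρ * n := mul_le_mul_of_nonneg_left (by linarith) hρ.le
        have h6 : 0 ≤ ((d:ℝ) + 1) * (S.card : ℝ) := by positivity
        nlinarith
    · intro u hu
      obtain ⟨h1, h2, h3, h4⟩ := hS0m u (hSS hu)
      refine ⟨?_, ?_⟩
      · rw [← h3]; exact (hk2 u h1).2
      · rw [← h4]; exact hko u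
  · -- few
    push Not at hcase
    set Yb : Bool → Finset V := fun b => univ.filter fun v => inO b v ∧ ¬ inO (!b) v with hYb
    have hdj : Disjoint (Yb true) (Yb false) := by
      rw [disjoint_left]
      intro v h1 h2
      simp only [hYb, mem_filter, mem_univ, true_and, Bool.not_true, Bool.not_false] at h1 h2
      exact h2.2 h1.1
    have hsum2 : ((Yb true).card : ℝ) + ((Yb false).card : ℝ) ≤ n := by
      have h1 := hle (Yb true ∪ Yb false)
      rw [card_union_of_disjoint hdj] at h1
      push_cast at h1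
      exact h1
    obtain ⟨b, hb⟩ : ∃ b, ((Yb b).card : ℝ) ≤ n / 2 := by
      by_contra hcon
      push Not at hcon
      have h1 := hcon true
      have h2 := hcon false
      linarith
    obtain ⟨k, hkb, hkc⟩ : ∃ k : Bool × Bool, k.2 = b ∧ 1 / 5 * n ≤ ((W k).card : ℝ) := by
      by_contra hcon
      push Not at hcon
      have h1 := hcon (true, b) rfl
      have h2 := hcon (false, b) rfl
      have h3 := hT.outB b
      rw [← hn] at h3
      have h4 : δ * n ≤ (1/100) * n := mul_le_mul_of_nonneg_right hδ hn0.le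
      linarith
    set X := Yb (!b) with hX
    have hcov : ∀ v, v ∈ I0 ∨ v ∈ Yb b ∨ v ∈ X := by
      intro v
      by_cases h1 : inO b v
      · by_cases h2 : inO (!b) v
        · left
          rw [hI0, mem_filter]
          refine ⟨mem_univ _, ?_⟩
          cases b
          · exact ⟨h2, h1⟩
          · exact ⟨h1, h2⟩
        · right; left
          rw [hYb]
          exact mem_filter.2 ⟨mem_univ _, h1, h2⟩
      · right; right
        obtain ⟨b', hb'⟩ := hin v
        have hbb : b' = (!b) := by
          by_contra hne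
          apply h1
          have : b' = b := by
            revert hne
            cases b <;> cases b' <;> decide
          rw [← this]
          exact hb'
        rw [hX, hYb]
        refine mem_filter.2 ⟨mem_univ _, ?_, ?_⟩
        · rw [← hbb]; exact hb'
        · rw [Bool.not_not]; exact h1
    have hinY : ∀ y ∈ W k, L / 2 ≤ ((X ∩ adjN D (!false) y).card : ℝ) := by
      intro y _
      have h1 : (adjN D true y).card ≤ I0.card + ((Yb b).card + (X ∩ adjN D true y).card) := by
        calc (adjN D true y).card ≤ (I0 ∪ (Yb b ∪ (X ∩ adjN D true y))).card := by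
              apply card_le_card
              intro v hv
              rw [mem_union, mem_union, mem_inter]
              rcases hcov v with h | h | h
              · exact Or.inl h
              · exact Or.inr (Or.inl h)
              · exact Or.inr (Or.inr ⟨h, hv⟩)
          _ ≤ I0.card + (Yb b ∪ (X ∩ adjN D true y)).card := card_union_le _ _
          _ ≤ _ := by gcongr; exact card_union_le _ _
      have h2 : ((adjN D true y).card : ℝ) ≤ I0.card + ((Yb b).card + (X ∩ adjN D true y).card) := by
        exact_mod_cast h1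
      have h3 := hdeg true y
      rw [← hn] at h3
      simp only [Bool.not_false]
      linarith
    have hst1 : (1:ℝ) / 5 * (Fintype.card V : ℝ) ≤ ((W k).card : ℝ) := hkc
    have hst2 : (4:ℝ) * d ≤ 1 / 5 * (L / 2) := by linarith
    have hst3 : ∀ u ∈ X, ((W k ∩ adjN D false u).card : ℝ) ≤ 1 * (Fintype.card V : ℝ) := by
      intro u _
      rw [one_mul]
      exact hle _
    obtain ⟨S, lv, hSX, hst, hsz⟩ := stars d (1 / 5) (by norm_num) D hSD.irr false X (W k) (L / 2) 1
      one_pos hst1 hst2 hinY hst3 hV
    have hSc : L ≤ 40 * ((d + 1) * (S.card : ℝ)) := by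
      rcases hsz with h | h
      · linarith
      · rw [← hn] at h
        linarith
    have hk2 : ∀ v : V, ∃ k' : Bool × Bool, v ∈ X → k'.2 = (!b) ∧ Opt D W ρ false k' v := by
      intro v
      by_cases h : v ∈ X
      · have h' := h
        simp only [hX, hYb, mem_filter, mem_univ, true_and] at h'
        obtain ⟨k', hk'⟩ := h'.1
        exact ⟨k', fun _ => hk'⟩
      · exact ⟨(true, true), fun hh => absurd hh h⟩
    choose k2 hk2 using hk2
    obtain ⟨⟨y2, y3⟩, S', hS's, hS'f, hy⟩ := inst_pigeon S (fun v => (k2 v, ko v))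
    have hcard : (Fintype.card ((Bool × Bool) × (Bool × Bool)) : ℝ) = 16 := by
      simp only [Fintype.card_prod, Fintype.card_bool]; norm_num
    rw [hcard] at hy
    have hS'm : ∀ u ∈ S', u ∈ X ∧ k2 u = y2 ∧ ko u = y3 := by
      intro u hu
      have h2 := hS'f u hu
      simp only [Prod.mk.injEq] at h2
      exact ⟨hSX (hS's hu), h2.1, h2.2⟩
    have hd1 : (0:ℝ) < d + 1 := by positivity
    have hLS : L ≤ 640 * ((d + 1) * (S'.card : ℝ)) := by
      have h1 : (d + 1) * (S.card : ℝ) ≤ (d + 1) * (16 * (S'.card : ℝ)) :=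
        mul_le_mul_of_nonneg_left hy hd1.le
      linarith
    have hS'ne : S'.Nonempty := by
      rw [← card_pos]
      by_contra hcon
      have h0 : S'.card = 0 := by omega
      rw [h0] at hLS
      push_cast at hLS
      linarith
    obtain ⟨u0, hu0⟩ := hS'ne
    refine ⟨k, y2, y3, ?_, S', lv, inst_stars_mono D false d S S' (W k) lv hst hS's,
      ?_, ?_⟩
    · obtain ⟨h1, h2, h3⟩ := hS'm u0 hu0
      have e2 := (hk2 u0 h1).1
      rw [h2] at e2
      rw [hkb, e2]
      cases b <;> simp
    · rw [div_mul_eq_mul_div, div_le_iff₀ (by positivity)]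
      have h6 : ρ * L ≤ 1 * L := mul_le_mul_of_nonneg_right (by linarith) (by linarith)
      nlinarith
    · intro u hu
      obtain ⟨h1, h2, h3⟩ := hS'm u hu
      refine ⟨?_, ?_⟩
      · rw [← h2]; exact (hk2 u h1).2
      · rw [← h3]; exact hko u

end

end OT
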