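import Pool.Agent.Helper20.EX3.Statements
import Pool.Agent.Helper62.EX.TB

set_option autoImplicit false

open Finset
open scoped Classical

namespace OT

noncomputable section

/-! ### WK : labels from windows -/

theorem wk_nb_iff {n : ℕ} (T : PTree n) (u w : Fin n) : T.Nb u w ↔ T.Arc u w ∨ T.Arc w u := by
  unfold PTree.Nb PTree.Arc
  constructor
  · rintro (⟨h1, h2⟩ | ⟨h1, h2⟩)
    · cases hs : T.sg w
      · exact Or.inr (Or.inr ⟨h1, h2, rfl⟩)
      · exact Or.inl (Or.inl ⟨h1, h2, rfl⟩)
    · cases hs : T.sg u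
      · exact Or.inl (Or.inr ⟨h1, h2, rfl⟩)
      · exact Or.inr (Or.inl ⟨h1, h2, rfl⟩)
  · rintro ((⟨h1, h2, _⟩ | ⟨h1, h2, _⟩) | (⟨h1, h2, _⟩ | ⟨h1, h2, _⟩))
    · exact Or.inl ⟨h1, h2⟩
    · exact Or.inr ⟨h1, h2⟩
    · exact Or.inr ⟨h1, h2⟩
    · exact Or.inl ⟨h1, h2⟩

theorem wk_ball {n ℓ p : ℕ} (T : PTree n) (x : ℕ → Fin n) (hx : Win T ℓ x) (k : ℕ)
    (hp : k + 2 ≤ p) (hl : p + k + 2 ≤ ℓ) : ∀ w ∈ T.ball k (x p),
    ∃ i, p ≤ i + k ∧ i ≤ p + k ∧ w = x i := by
  induction k with
  | zero =>
    intro w hw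
    refine ⟨p, by omega, by omega, ?_⟩
    simpa [PTree.ball] using hw
  | succ k ih =>
    intro w hw
    have ih' := ih (by omega) (by omega)
    rw [PTree.ball, mem_union] at hw
    rcases hw with hw | hw
    · obtain ⟨i, h1, h2, h3⟩ := ih' w hw
      exact ⟨i, by omega, by omega, h3⟩
    · rw [mem_filter] at hw
      obtain ⟨_, u, hu, hn⟩ := hw
      obtain ⟨i, h1, h2, h3⟩ := ih' u hu
      rw [wk_nb_iff] at hn
      subst h3
      rcases hn with hn | hn
      · have := (hx.out i (by omega) (by omega) w).1 hn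
        exact ⟨i + 1, by omega, by omega, this⟩
      · have := (hx.inn i (by omega) (by omega) w).1 hn
        exact ⟨i - 1, by omega, by omega, this⟩

theorem x3_wk : StWK := by
  intro n ℓ m p T x fill J hp hpl hW hinj hf1 hfl hfs
  set κ : Fin n → Bool × Bool := fun v =>
    if h : ∃ q : Fin m × ℕ, 1 ≤ q.2 ∧ q.2 ≤ ℓ ∧ v = x q.1 q.2 then
      fill h.choose.1 h.choose.2 else (true, true) with hκ
  have hk1 : ∀ j i, 1 ≤ i → i ≤ ℓ → κ (x j i) = fill j i := by
    intro j i h1 h2
    have h : ∃ q : Fin m × ℕ, 1 ≤ q.2 ∧ q.2 ≤ ℓ ∧ x j i = x q.1 q.2 := ⟨(j, i), h1, h2, rfl⟩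
    have e : κ (x j i) = fill h.choose.1 h.choose.2 := by
      rw [hκ]; exact dif_pos h
    obtain ⟨a1, a2, a3⟩ := h.choose_spec
    obtain ⟨b1, b2⟩ := hinj _ _ _ _ h1 h2 a1 a2 a3
    rw [e, ← b1, ← b2]
  have hk0 : ∀ v, (¬ ∃ q : Fin m × ℕ, 1 ≤ q.2 ∧ q.2 ≤ ℓ ∧ v = x q.1 q.2) → κ v = (true, true) := by
    intro v h
    rw [hκ]; exact dif_neg h
  refine ⟨κ, hk1, ?_, ?_, ?_⟩
  · intro a ha b hb hab hball
    rw [mem_image] at ha hb
    obtain ⟨j, hj, rfl⟩ := ha
    obtain ⟨j', hj', rfl⟩ := hb
    obtain ⟨i, h1, h2, h3⟩ := wk_ball T (x j) (hW j) 3 (by omega) (by omega) _ hball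
    obtain ⟨b1, b2⟩ := hinj _ _ _ _ (by omega) (by omega) (by omega) (by omega) h3
    exact hab (by rw [b1])
  · intro a b hab ha hb
    by_cases hia : ∃ q : Fin m × ℕ, 1 ≤ q.2 ∧ q.2 ≤ ℓ ∧ a = x q.1 q.2
    · obtain ⟨⟨j, i⟩, h1, h2, h3⟩ := hia
      simp only at h1 h2 h3
      subst h3
      have hbe := ((hW j).out i h1 h2 b).1 hab
      rw [hk1 j i h1 h2]
      rcases Nat.lt_or_ge i ℓ with hi | hi
      · rw [hbe, hk1 j (i + 1) (by omega) (by omega)]
        apply hfs j i h1 hi
        rintro ⟨hj, hh | hh⟩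
        · exact ha (mem_image.2 ⟨j, hj, by rw [hh]⟩)
        · exact hb (mem_image.2 ⟨j, hj, by rw [hbe, hh]⟩)
      · have hi' : i = ℓ := by omega
        subst hi'
        rw [hfl j]
        by_cases hib : ∃ q : Fin m × ℕ, 1 ≤ q.2 ∧ q.2 ≤ i ∧ b = x q.1 q.2
        · obtain ⟨⟨j', i'⟩, h1', h2', h3'⟩ := hib
          simp only at h1' h2' h3'
          have hae := ((hW j').inn i' h1' h2' (x j i)).1 (by rw [← h3']; exact hab)
          rcases Nat.lt_or_ge 1 i' with hi' | hi'
          · obtain ⟨_, b2⟩ := hinj _ _ _ _ h1 h2 (by omega) (by omega) hae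
            omega
          · have : i' = 1 := by omega
            subst this
            rw [h3', hk1 j' 1 (by omega) (by omega), hf1]
        · rw [hk0 b hib]
    · rw [hk0 a hia]
      by_cases hib : ∃ q : Fin m × ℕ, 1 ≤ q.2 ∧ q.2 ≤ ℓ ∧ b = x q.1 q.2
      · obtain ⟨⟨j', i'⟩, h1', h2', h3'⟩ := hib
        simp only at h1' h2' h3'
        have hae := ((hW j').inn i' h1' h2' a).1 (by rw [← h3']; exact hab)
        rcases Nat.lt_or_ge 1 i' with hi' | hi'
        · exact absurd ⟨(j', i' - 1), by simp only; omega, by simp only; omega, hae⟩ hia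
        · have : i' = 1 := by omega
          subst this
          rw [h3', hk1 j' 1 (by omega) (by omega), hf1]
      · rw [hk0 b hib]
  · intro k
    set X : Fin m × Fin ℓ → Fin n := fun q => x q.1 ((q.2 : ℕ) + 1) with hX
    have hXinj : Function.Injective X := by
      rintro ⟨j, i⟩ ⟨j', i'⟩ h
      simp only [hX] at h
      obtain ⟨b1, b2⟩ := hinj _ _ _ _ (by omega) (by have := i.2; omega) (by omega)
        (by have := i'.2; omega) h
      ext1
      · exact b1
      · apply Fin.ext; simp only; omega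
    set Int : Finset (Fin n) := univ.image X with hInt
    have hmem : ∀ v, v ∈ Int ↔ ∃ q : Fin m × ℕ, 1 ≤ q.2 ∧ q.2 ≤ ℓ ∧ v = x q.1 q.2 := by
      intro v
      rw [hInt, mem_image]
      constructor
      · rintro ⟨⟨j, i⟩, _, h⟩
        exact ⟨(j, (i : ℕ) + 1), by simp only; omega, by simp only; have := i.2; omega, h.symm⟩
      · rintro ⟨⟨j, i⟩, h1, h2, h3⟩
        simp only at h1 h2 h3
        refine ⟨(j, ⟨i - 1, by omega⟩), mem_univ _, ?_⟩
        simp only [hX]
        rw [h3, Nat.sub_add_cancel h1]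
    have hIc : Int.card = m * ℓ := by
      rw [hInt, card_image_of_injective _ hXinj, card_univ, Fintype.card_prod, Fintype.card_fin,
        Fintype.card_fin]
    have hpI : ∀ v ∈ J.image (fun j => x j p), v ∈ Int := by
      intro v hv
      rw [mem_image] at hv
      obtain ⟨j, _, rfl⟩ := hv
      rw [hmem]
      exact ⟨(j, p), by simp only; omega, by simp only; omega, rfl⟩
    have hsplit : (univ.filter fun v => v ∉ (J.image fun j => x j p) ∧ κ v = k).card
        = (univ.filter fun v => v ∈ Int ∧ v ∉ (J.image fun j => x j p) ∧ κ v = k).card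
          + (univ.filter fun v => v ∉ Int ∧ κ v = k).card := by
      rw [← card_union_of_disjoint]
      · congr 1
        ext v
        simp only [mem_filter, mem_univ, true_and, mem_union]
        constructor
        · rintro ⟨h1, h2⟩
          by_cases h : v ∈ Int
          · exact Or.inl ⟨h, h1, h2⟩
          · exact Or.inr ⟨h, h2⟩
        · rintro (⟨_, h1, h2⟩ | ⟨h1, h2⟩)
          · exact ⟨h1, h2⟩
          · exact ⟨fun h => h1 (hpI v h), h2⟩
      · rw [disjoint_left]
        intro v h1 h2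
        rw [mem_filter] at h1 h2
        exact h2.2.1 h1.2.1
    have hA : (univ.filter fun v => v ∈ Int ∧ v ∉ (J.image fun j => x j p) ∧ κ v = k).card
        = (univ.filter fun q : Fin m × Fin ℓ =>
          ¬ (q.1 ∈ J ∧ (q.2 : ℕ) + 1 = p) ∧ fill q.1 ((q.2 : ℕ) + 1) = k).card := by
      rw [← card_image_of_injective _ hXinj]
      congr 1
      ext v
      simp only [mem_filter, mem_univ, true_and, mem_image]
      constructor
      · rintro ⟨h1, h2, h3⟩
        rw [hInt, mem_image] at h1
        obtain ⟨⟨j, i⟩, _, h⟩ := h1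
        refine ⟨(j, i), ⟨?_, ?_⟩, h⟩
        · rintro ⟨hj, hi⟩
          apply h2
          refine ⟨j, hj, ?_⟩
          rw [← h]
          simp only [hX]
          rw [hi]
        · rw [← h3, ← h]
          simp only [hX]
          rw [hk1 j _ (by omega) (by have := i.2; omega)]
      · rintro ⟨⟨j, i⟩, ⟨h1, h2⟩, h⟩
        simp only at h1 h2
        refine ⟨?_, ?_, ?_⟩
        · rw [hInt, mem_image]
          exact ⟨(j, i), mem_univ _, h⟩
        · rintro ⟨j', hj', hh⟩
          apply h1
          rw [← h] at hh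
          simp only [hX] at hh
          obtain ⟨b1, b2⟩ := hinj _ _ _ _ (by omega) (by omega) (by omega)
            (by have := i.2; omega) hh
          exact ⟨by rw [← b1]; exact hj', b2.symm⟩
        · rw [← h]
          simp only [hX]
          rw [hk1 j _ (by omega) (by have := i.2; omega), h2]
    have hB : (univ.filter fun v => v ∉ Int ∧ κ v = k).card + (if k = (true, true) then m * ℓ else 0)
        = (if k = (true, true) then n else 0) := by
      by_cases hk : k = (true, true)
      · rw [if_pos hk, if_pos hk]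
        have e : (univ.filter fun v => v ∉ Int ∧ κ v = k) = Intᶜ := by
          ext v
          simp only [mem_filter, mem_univ, true_and, mem_compl]
          constructor
          · exact fun h => h.1
          · intro h
            exact ⟨h, by rw [hk0 v (fun hh => h ((hmem v).2 hh)), hk]⟩
        rw [e, card_compl, Fintype.card_fin, hIc]
        have : Int.card ≤ n := by
          have := card_le_univ Int
          rwa [Fintype.card_fin] at this
        omega
      · rw [if_neg hk, if_neg hk, add_zero, card_eq_zero, filter_eq_empty_iff]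
        intro v _ hh
        apply hk
        rw [← hh.2, hk0 v (fun h => hh.1 ((hmem v).2 h))]
    omega

end

end OT
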